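import Mathlib

/-!
# Automorphisms of `ℂ`

Extension of automorphisms of a subfield to an algebraically closed field, and the fixed field of
the automorphisms of `ℂ` over a subfield.
-/

namespace Pool.Agent.Lib.MPf11a48.AutC

open MvPolynomial

section General

variable {k Ω : Type*} [Field k] [Field Ω] [Algebra k Ω] [IsAlgClosed Ω]

/-- Every automorphism of the polynomial ring on a transcendence basis extends. -/
theorem exists_ringEquiv {ι : Type*} {v : ι → Ω} (hv : IsTranscendenceBasis k v)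
    (φ : MvPolynomial ι k ≃+* MvPolynomial ι k) :
    ∃ σ : Ω ≃+* Ω, ∀ p, σ (aeval v p) = aeval v (φ p) := by
  have := IsAlgClosed.isAlgClosure_of_transcendence_basis v hv
  let e : Algebra.adjoin k (Set.range v) ≃+* Algebra.adjoin k (Set.range v) :=
    hv.1.aevalEquiv.symm.toRingEquiv.trans (φ.trans hv.1.aevalEquiv.toRingEquiv)
  refine ⟨IsAlgClosure.equivOfEquiv Ω Ω e, fun p => ?_⟩
  have h := IsAlgClosure.equivOfEquiv_algebraMap Ω Ω e (hv.1.aevalEquiv p)
  have h1 : algebraMap (Algebra.adjoin k (Set.range v)) Ω (hv.1.aevalEquiv p) = aeval v p :=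
    hv.1.algebraMap_aevalEquiv p
  have h2 : e (hv.1.aevalEquiv p) = hv.1.aevalEquiv (φ p) := by
    change hv.1.aevalEquiv (φ (hv.1.aevalEquiv.symm (hv.1.aevalEquiv p))) = _
    rw [AlgEquiv.symm_apply_apply]
  rw [h1, h2] at h
  rw [h]
  exact hv.1.algebraMap_aevalEquiv (φ p)

/-- Every automorphism of `k` extends to an algebraically closed extension. -/
theorem exists_extend (τ : k ≃+* k) :
    ∃ σ : Ω ≃+* Ω, ∀ x, σ (algebraMap k Ω x) = algebraMap k Ω (τ x) := by
  obtain ⟨s, hs⟩ := exists_isTranscendenceBasis k Ω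
  obtain ⟨σ, hσ⟩ := exists_ringEquiv hs (MvPolynomial.mapEquiv s τ)
  refine ⟨σ, fun x => ?_⟩
  have h := hσ (C x)
  rw [aeval_C] at h
  rw [h, mapEquiv_apply, map_C, aeval_C]
  rfl

/-- The sign change of all variables. -/
noncomputable def negEquiv (ι k : Type*) [Field k] : MvPolynomial ι k ≃ₐ[k] MvPolynomial ι k :=
  AlgEquiv.ofAlgHom (aeval fun i => -X i) (aeval fun i => -X i)
    (by ext i; simp) (by ext i; simp)

/-- A transcendental element is moved by some automorphism. -/
theorem exists_move [CharZero Ω] {z : Ω} (hz : Transcendental k z) :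
    ∃ σ : Ω ≃+* Ω, (∀ x, σ (algebraMap k Ω x) = algebraMap k Ω x) ∧ σ z ≠ z := by
  have hind : AlgebraicIndepOn k id ({z} : Set Ω) :=
    algebraicIndependent_unique_type_iff.2 hz
  obtain ⟨t, hzt, ht⟩ := exists_isTranscendenceBasis_superset hind
  obtain ⟨σ, hσ⟩ := exists_ringEquiv ht (negEquiv t k).toRingEquiv
  refine ⟨σ, fun x => ?_, ?_⟩
  · have h := hσ (C x)
    have h1 : (negEquiv t k).toRingEquiv (C x) = C x := (negEquiv t k).commutes x
    rwa [h1, aeval_C] at h
  · have h := hσ (X ⟨z, hzt rfl⟩)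
    have h1 : (negEquiv t k).toRingEquiv (X ⟨z, hzt rfl⟩) = -X ⟨z, hzt rfl⟩ := by
      change (aeval fun i => -X i) (X _) = _
      rw [aeval_X]
    rw [h1, aeval_X, map_neg, aeval_X] at h
    change σ z = -z at h
    rw [h]
    intro h2
    have h3 : z = 0 := by
      have : (2 : Ω) * z = 0 := by linear_combination -h2
      rcases mul_eq_zero.1 this with h4 | h4
      · exact absurd h4 two_ne_zero
      · exact h4
    rw [h3] at hz
    exact hz (isAlgebraic_zero)

end General

/-- **Fixed field.** For every subfield `K` of `ℂ`, a complex number fixed by all automorphisms of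
`ℂ` that fix `K` pointwise lies in `K`. -/
theorem mem_of_fixed (K : IntermediateField ℚ ℂ) {z : ℂ}
    (h : ∀ σ : ℂ ≃+* ℂ, (∀ x ∈ K, σ x = x) → σ z = z) : z ∈ K := by
  by_cases hz : Transcendental K z
  · obtain ⟨σ, hσ, hσz⟩ := exists_move hz
    exact absurd (h σ fun x hx => hσ ⟨x, hx⟩) hσz
  · have hz' : IsAlgebraic K z := by
      by_contra hcon
      exact hz hcon
    let L : IntermediateField K ℂ := algebraicClosure K ℂ
    have hL : IsAlgClosure K L := algebraicClosure.isAlgClosure K ℂ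
    have hG : IsGalois K L := IsAlgClosure.isGalois K L
    have hzL : z ∈ L := mem_algebraicClosure_iff.2 hz'
    have hbot : (⟨z, hzL⟩ : L) ∈ (⊥ : IntermediateField K L) := by
      rw [InfiniteGalois.mem_bot_iff_fixed]
      intro τ
      obtain ⟨σ, hσ⟩ := exists_extend (Ω := ℂ) (τ : L ≃ₐ[K] L).toRingEquiv
      have h1 : σ z = z := by
        refine h σ fun x hx => ?_
        have h2 := hσ (algebraMap K L ⟨x, hx⟩)
        have h3 : (τ : L ≃ₐ[K] L).toRingEquiv (algebraMap K L ⟨x, hx⟩) =
            algebraMap K L ⟨x, hx⟩ := τ.commutes _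
        rw [h3] at h2
        exact h2
      have h4 := hσ ⟨z, hzL⟩
      apply Subtype.ext
      exact h4.symm.trans h1
    obtain ⟨x, hx⟩ := IntermediateField.mem_bot.1 hbot
    have h5 : (x : ℂ) = z := congrArg (algebraMap L ℂ) hx
    rw [← h5]
    exact x.2

/-- Every automorphism of the field of algebraic numbers extends to `ℂ`. -/
theorem exists_extend_Qbar
    (τ : (algebraicClosure ℚ ℂ : IntermediateField ℚ ℂ) ≃ₐ[ℚ]
      (algebraicClosure ℚ ℂ : IntermediateField ℚ ℂ)) :
    ∃ σ : ℂ ≃+* ℂ, ∀ x : (algebraicClosure ℚ ℂ : IntermediateField ℚ ℂ), σ (x : ℂ) = (τ x : ℂ) :=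
  exists_extend (Ω := ℂ) τ.toRingEquiv

end Pool.Agent.Lib.MPf11a48.AutC
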