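import Mathlib

/-!
# Functions with values in `{-1, 0, 1}` in translation-stable spaces

For a finite abelian group `G`, every nonzero translation-stable `ℚ`-subspace of `G → ℚ` contains
a nonzero function with values in `{-1, 0, 1}`.
-/

namespace Pool.Agent.Lib.MPf11a48.Ternary

open Polynomial

variable {G : Type*} [CommGroup G]

/-- The translation operators on functions. -/
def T : G →* Module.End ℚ (G → ℚ) where
  toFun g :=
    { toFun := fun u x => u (g * x)
      map_add' := fun _ _ => rfl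
      map_smul' := fun _ _ => rfl }
  map_one' := LinearMap.ext fun u => funext fun x => by
    change u (1 * x) = u x
    rw [one_mul]
  map_mul' g h := LinearMap.ext fun u => funext fun x => by
    change u (g * h * x) = u (h * (g * x))
    rw [mul_comm g h, mul_assoc]

theorem T_apply (g : G) (u : G → ℚ) (x : G) : T g u x = u (g * x) := rfl

/-- Translation-stable subspaces. -/
def Stable (U : Submodule ℚ (G → ℚ)) : Prop := ∀ g, ∀ u ∈ U, T g u ∈ U

/-- The action of the group algebra on functions. -/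
noncomputable def act : MonoidAlgebra ℚ G →ₐ[ℚ] Module.End ℚ (G → ℚ) :=
  MonoidAlgebra.lift ℚ _ G T

theorem act_single (g : G) : act (MonoidAlgebra.single g (1 : ℚ)) = T g := by
  simp [act]

theorem Stable.act {U : Submodule ℚ (G → ℚ)} (hU : Stable U) (a : MonoidAlgebra ℚ G)
    {u : G → ℚ} (hu : u ∈ U) : Ternary.act a u ∈ U := by
  induction a using MonoidAlgebra.induction_on with
  | of g =>
    have : Ternary.act (MonoidAlgebra.of ℚ G g) = T g := by simp [Ternary.act]
    rw [this]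
    exact hU g u hu
  | add a b ha hb =>
    rw [map_add, LinearMap.add_apply]
    exact U.add_mem ha hb
  | smul r a ha =>
    rw [map_smul, LinearMap.smul_apply]
    exact U.smul_mem r ha

/-- A minimal nonzero stable subspace. -/
structure Minimal (U : Submodule ℚ (G → ℚ)) : Prop where
  stable : Stable U
  ne : U ≠ ⊥
  min : ∀ W ≤ U, Stable W → W ≠ ⊥ → W = U

theorem exists_minimal [Finite G] (U : Submodule ℚ (G → ℚ)) (hU : Stable U) (hne : U ≠ ⊥) :
    ∃ W ≤ U, Minimal W := by
  obtain ⟨W, ⟨hW1, hW2, hW3⟩, hmin⟩ :=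
    (wellFounded_lt (α := Submodule ℚ (G → ℚ))).has_min
      {W | W ≤ U ∧ Stable W ∧ W ≠ ⊥} ⟨U, le_rfl, hU, hne⟩
  refine ⟨W, hW1, hW2, hW3, fun W' hle hs hn => ?_⟩
  by_contra hcon
  exact hmin W' ⟨hle.trans hW1, hs, hn⟩ (lt_of_le_of_ne hle hcon)

/-- The kernel of the group algebra acting on `U`. -/
noncomputable def ann (U : Submodule ℚ (G → ℚ)) (hU : Stable U) : Ideal (MonoidAlgebra ℚ G) where
  carrier := {a | ∀ u ∈ U, act a u = 0}
  zero_mem' := fun u _ => by rw [map_zero]; rfl
  add_mem' := fun {a b} ha hb u hu => by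
    rw [map_add, LinearMap.add_apply, ha u hu, hb u hu, add_zero]
  smul_mem' := fun c a ha u hu => by
    rw [smul_eq_mul, mul_comm, map_mul, Module.End.mul_apply]
    exact ha _ (hU.act c hu)

theorem mem_ann {U : Submodule ℚ (G → ℚ)} {hU : Stable U} {a : MonoidAlgebra ℚ G} :
    a ∈ ann U hU ↔ ∀ u ∈ U, act a u = 0 := Iff.rfl

theorem Minimal.prime {U : Submodule ℚ (G → ℚ)} (hU : Minimal U) :
    (ann U hU.stable).IsPrime := by
  constructor
  · intro h
    have : (1 : MonoidAlgebra ℚ G) ∈ ann U hU.stable := h ▸ Submodule.mem_top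
    apply hU.ne
    rw [Submodule.eq_bot_iff]
    intro u hu
    have := this u hu
    rwa [map_one] at this
  · intro a b hab
    by_contra hcon
    push Not at hcon
    obtain ⟨ha, hb⟩ := hcon
    rw [mem_ann] at ha
    push Not at ha
    obtain ⟨u, hu, hau⟩ := ha
    apply hb
    let W : Submodule ℚ (G → ℚ) := U ⊓ LinearMap.ker (act b)
    have hW : W = U := by
      refine hU.min W inf_le_left ?_ ?_
      · intro g v hv
        refine ⟨hU.stable g v hv.1, ?_⟩
        have hv2 : act b v = 0 := hv.2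
        change act b (T g v) = 0
        rw [← act_single, ← Module.End.mul_apply, ← map_mul, mul_comm, map_mul,
          Module.End.mul_apply, hv2, map_zero]
      · intro h0
        apply hau
        have : act a u ∈ W := by
          refine ⟨hU.stable.act a hu, ?_⟩
          change act b (act a u) = 0
          rw [← Module.End.mul_apply, ← map_mul, mul_comm]
          exact hab u hu
        rw [h0] at this
        exact this
    intro v hv
    rw [← hW] at hv
    exact hv.2

/-- The group of elements acting trivially on `U`. -/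
def kerG (U : Submodule ℚ (G → ℚ)) : Subgroup G where
  carrier := {g | ∀ u ∈ U, T g u = u}
  one_mem' := fun u _ => by rw [map_one]; rfl
  mul_mem' := fun {a b} ha hb u hu => by
    rw [map_mul, Module.End.mul_apply, hb u hu, ha u hu]
  inv_mem' := fun {a} ha u hu => by
    conv_lhs => rw [← ha u hu]
    rw [← Module.End.mul_apply, ← map_mul, inv_mul_cancel, map_one]
    rfl

theorem mem_kerG {U : Submodule ℚ (G → ℚ)} {g : G} : g ∈ kerG U ↔ ∀ u ∈ U, T g u = u := Iff.rfl

theorem Minimal.cyclic [Finite G] {U : Submodule ℚ (G → ℚ)} (hU : Minimal U) :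
    IsCyclic (G ⧸ kerG U) := by
  have := hU.prime
  let R := MonoidAlgebra ℚ G ⧸ ann U hU.stable
  let f : G →* R := (Ideal.Quotient.mk (ann U hU.stable) : MonoidAlgebra ℚ G →* R).comp
    (MonoidAlgebra.of ℚ G)
  have hf : ∀ g, f g = 1 ↔ g ∈ kerG U := by
    intro g
    have h1 : f g = 1 ↔ MonoidAlgebra.of ℚ G g - 1 ∈ ann U hU.stable := by
      rw [← Ideal.Quotient.eq, map_one]
      rfl
    rw [h1, mem_ann, mem_kerG]
    have h2 : act (MonoidAlgebra.of ℚ G g) = T g := by simp [act]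
    refine forall₂_congr fun u hu => ?_
    rw [map_sub, map_one, LinearMap.sub_apply, h2, sub_eq_zero]
    rfl
  have hker : kerG U ≤ f.ker := fun g hg => (hf g).2 hg
  let F : G ⧸ kerG U →* R := QuotientGroup.lift (kerG U) f hker
  have hF : Function.Injective F := by
    rw [injective_iff_map_eq_one]
    intro q
    induction q using QuotientGroup.induction_on with
    | H g =>
      intro h
      rw [QuotientGroup.eq_one_iff]
      exact (hf g).1 h
  exact isCyclic_of_injective_ringHom F hF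

/-- The polynomials in a translation operator. -/
noncomputable def pol (γ : G) (P : ℚ[X]) : MonoidAlgebra ℚ G :=
  aeval (MonoidAlgebra.of ℚ G γ) P

theorem act_pol (γ : G) (P : ℚ[X]) : act (pol γ P) = aeval (T γ) P := by
  rw [pol, ← aeval_algHom_apply]
  congr 2
  simp [act]

open Classical in
/-- The indicator function of a subgroup. -/
noncomputable def ind (N : Subgroup G) : G → ℚ := fun x => if x ∈ N then 1 else 0

theorem aeval_mul_apply (γ : G) (P Q : ℚ[X]) (u : G → ℚ) :
    aeval (T γ) (P * Q) u = aeval (T γ) P (aeval (T γ) Q u) := by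
  rw [map_mul, Module.End.mul_apply]

theorem aeval_X_pow (γ : G) (k : ℕ) (u : G → ℚ) (x : G) :
    aeval (T γ) (X ^ k : ℚ[X]) u x = u (γ ^ k * x) := by
  rw [map_pow, aeval_X, ← map_pow]
  rfl

theorem aeval_X_pow_sub_one (γ : G) (k : ℕ) (u : G → ℚ) (x : G) :
    aeval (T γ) (X ^ k - 1 : ℚ[X]) u x = u (γ ^ k * x) - u x := by
  rw [map_sub, map_one, LinearMap.sub_apply, Pi.sub_apply, aeval_X_pow]
  rfl

theorem aeval_Xm (N : Subgroup G) {γ : G} {m : ℕ} (hm : γ ^ m ∈ N) :
    aeval (T γ) (X ^ m - 1 : ℚ[X]) (ind N) = 0 := by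
  funext x
  rw [aeval_X_pow_sub_one, ind, ind, N.mul_mem_cancel_left hm]
  simp

/-- Key combinatorial step: products of differences. -/
theorem ternary_prod (N : Subgroup G) {γ : G} {m : ℕ} (hγ : ∀ k : ℕ, γ ^ k ∈ N ↔ m ∣ k)
    (hm : m ≠ 0) (s : Finset ℕ) (hs : s ⊆ m.primeFactors) :
    let F := aeval (T γ) (∏ p ∈ s, (X ^ (m / p) - 1 : ℚ[X])) (ind N)
    (∀ x, F x = 0 ∨ F x = 1 ∨ F x = -1) ∧ (∀ x, F x ≠ 0 → x ^ (∏ p ∈ s, p) ∈ N) ∧
      ∃ x, F x ≠ 0 := by
  classical
  induction s using Finset.induction_on with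
  | empty =>
    refine ⟨fun x => ?_, fun x hx => ?_, 1, ?_⟩
    · simp only [Finset.prod_empty, map_one, Module.End.one_apply, ind]
      split_ifs <;> simp
    · simp only [Finset.prod_empty, map_one, Module.End.one_apply, ind] at hx
      simpa using hx
    · simp [ind]
  | insert q s hq ih =>
    have hqm : q ∈ m.primeFactors := hs (Finset.mem_insert_self _ _)
    have hqp : q.Prime := Nat.prime_of_mem_primeFactors hqm
    have hqd : q ∣ m := Nat.dvd_of_mem_primeFactors hqm
    obtain ⟨h1, h2, h3⟩ := ih (fun x hx => hs (Finset.mem_insert_of_mem hx))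
    set F := aeval (T γ) (∏ p ∈ s, (X ^ (m / p) - 1 : ℚ[X])) (ind N) with hF
    have hF' : ∀ x, aeval (T γ) (∏ p ∈ insert q s, (X ^ (m / p) - 1 : ℚ[X])) (ind N) x =
        F (γ ^ (m / q) * x) - F x := by
      intro x
      rw [Finset.prod_insert hq, aeval_mul_apply, aeval_X_pow_sub_one]
    set P := ∏ p ∈ s, p with hP
    have hcop : ¬ q ∣ P := by
      rw [hP, hqp.prime.dvd_finsetProd_iff]
      rintro ⟨p, hp, hqp'⟩
      have hpp : p.Prime := Nat.prime_of_mem_primeFactors (hs (Finset.mem_insert_of_mem hp))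
      have := (Nat.prime_dvd_prime_iff_eq hqp hpp).1 hqp'
      exact hq (this ▸ hp)
    -- the supports are disjoint
    have hdisj : ∀ x, F x ≠ 0 → F (γ ^ (m / q) * x) = 0 := by
      intro x hx
      by_contra hcon
      have e1 := h2 x hx
      have e2 := h2 _ hcon
      rw [mul_pow, N.mul_mem_cancel_right e1, ← pow_mul, hγ] at e2
      obtain ⟨r, hr⟩ := hqd
      have hr0 : r ≠ 0 := by
        rintro rfl
        simp at hr
        exact hm hr
      rw [hr, Nat.mul_div_cancel_left _ hqp.pos, mul_comm q r] at e2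
      exact hcop (Nat.dvd_of_mul_dvd_mul_left (Nat.pos_of_ne_zero hr0) e2)
    have hsupp : ∀ x, F (γ ^ (m / q) * x) ≠ 0 → F x = 0 := by
      intro x hx
      by_contra hcon
      exact hx (hdisj x hcon)
    refine ⟨fun x => ?_, fun x hx => ?_, ?_⟩
    · rw [hF' x]
      by_cases hx : F x = 0
      · rw [hx, sub_zero]
        exact h1 _
      · rw [hdisj x hx, zero_sub]
        rcases h1 x with h | h | h
        · exact absurd h hx
        · right; right; rw [h]
        · right; left; rw [h]; norm_num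
    · rw [hF' x] at hx
      rw [Finset.prod_insert hq, mul_comm, pow_mul]
      by_cases h0 : F x = 0
      · rw [h0, sub_zero] at hx
        have e2 := h2 _ hx
        have e3 : ((γ ^ (m / q) * x) ^ P) ^ q ∈ N := N.pow_mem e2 q
        have e4 : (γ ^ (m / q)) ^ q ∈ N := by
          rw [← pow_mul, Nat.div_mul_cancel hqd]
          exact (hγ m).2 dvd_rfl
        rw [mul_pow, mul_pow, ← pow_mul, mul_comm P q, pow_mul] at e3
        exact (N.mul_mem_cancel_left (N.pow_mem e4 P)).1 e3
      · exact N.pow_mem (h2 x h0) q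
    · obtain ⟨x, hx⟩ := h3
      refine ⟨x, ?_⟩
      rw [hF' x, hdisj x hx, zero_sub]
      exact neg_ne_zero.2 hx

theorem prod_cyclotomic_dvd {m : ℕ} (hm : m ≠ 0) :
    ∏ d ∈ m.properDivisors, cyclotomic d ℚ ∣ ∏ p ∈ m.primeFactors, (X ^ (m / p) - 1 : ℚ[X]) := by
  apply Finset.prod_dvd_of_coprime
  · intro a _ b _ hab
    exact cyclotomic.isCoprime_rat hab
  · intro d hd
    rw [Nat.mem_properDivisors] at hd
    obtain ⟨⟨e, he⟩, hlt⟩ := hd
    have he1 : e ≠ 1 := by
      rintro rfl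
      rw [mul_one] at he
      omega
    obtain ⟨p, hp, hpe⟩ := Nat.exists_prime_and_dvd he1
    have hpm : p ∈ m.primeFactors := by
      rw [Nat.mem_primeFactors]
      exact ⟨hp, he ▸ hpe.mul_left d, hm⟩
    refine dvd_trans ?_ (Finset.dvd_prod_of_mem _ hpm)
    obtain ⟨f, hf⟩ := hpe
    have h1 : m / p = d * f := by
      rw [he, hf, ← mul_assoc, mul_comm d p, mul_assoc, Nat.mul_div_cancel_left _ hp.pos]
    rw [h1]
    refine (cyclotomic.dvd_X_pow_sub_one d ℚ).trans ?_
    rw [pow_mul]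
    have := sub_dvd_pow_sub_pow (X ^ d : ℚ[X]) 1 f
    rwa [one_pow] at this

/-- An explicit element of a minimal stable space. -/
theorem Minimal.explicit [Finite G] {U : Submodule ℚ (G → ℚ)} (hU : Minimal U) :
    ∃ (γ : G) (m : ℕ), m ≠ 0 ∧ (∀ k : ℕ, γ ^ k ∈ kerG U ↔ m ∣ k) ∧
      (∀ x : G, ∃ i < m, γ ^ i * x ∈ kerG U) ∧
      aeval (T γ) (∏ p ∈ m.primeFactors, (X ^ (m / p) - 1 : ℚ[X])) (ind (kerG U)) ∈ U := by
  classical
  have hcyc := hU.cyclic
  set N := kerG U with hN
  obtain ⟨g0, hg0⟩ := hcyc.exists_generator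
  obtain ⟨γ, rfl⟩ := QuotientGroup.mk_surjective g0
  set m := orderOf (γ : G ⧸ N) with hm
  have hm0 : 0 < m := orderOf_pos _
  have hγ : ∀ k : ℕ, γ ^ k ∈ N ↔ m ∣ k := by
    intro k
    rw [hm, orderOf_dvd_iff_pow_eq_one, ← QuotientGroup.mk_pow, QuotientGroup.eq_one_iff]
  have hgen : ∀ x : G, ∃ i < m, γ ^ i * x ∈ N := by
    intro x
    have h1 : ((x⁻¹ : G) : G ⧸ N) ∈ Subgroup.zpowers (γ : G ⧸ N) := hg0 _
    rw [mem_zpowers_iff_mem_range_orderOf, Finset.mem_image] at h1
    obtain ⟨i, hi, hi2⟩ := h1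
    refine ⟨i, Finset.mem_range.1 hi, ?_⟩
    rw [← QuotientGroup.eq_one_iff, QuotientGroup.mk_mul, QuotientGroup.mk_pow, hi2,
      ← QuotientGroup.mk_mul, inv_mul_cancel, QuotientGroup.mk_one]
  have huniq : ∀ (x : G) (i j : ℕ), i < m → j < m → γ ^ i * x ∈ N → γ ^ j * x ∈ N → i = j := by
    intro x i j hi hj h1 h2
    have h3 : (γ : G ⧸ N) ^ i = (γ : G ⧸ N) ^ j := by
      rw [← QuotientGroup.eq_one_iff, QuotientGroup.mk_mul, QuotientGroup.mk_pow] at h1 h2
      exact mul_right_cancel (h1.trans h2.symm)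
    exact pow_injOn_Iio_orderOf hi hj h3
  -- every element of `U` is a polynomial in `T γ` applied to `ind N`
  have hrep : ∀ u ∈ U, ∃ P : ℚ[X], aeval (T γ) P (ind N) = u := by
    intro u hu
    refine ⟨∑ i ∈ Finset.range m, C (u ((γ ^ i)⁻¹)) * X ^ i, ?_⟩
    funext x
    rw [map_sum, LinearMap.sum_apply, Finset.sum_apply]
    obtain ⟨i0, hi0, hx⟩ := hgen x
    rw [Finset.sum_eq_single i0]
    · rw [map_mul, aeval_C, Module.End.mul_apply]
      change u ((γ ^ i0)⁻¹) * (aeval (T γ) (X ^ i0 : ℚ[X]) (ind N) x) = u x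
      rw [aeval_X_pow, ind, if_pos hx, mul_one]
      have h1 := congrFun ((mem_kerG.1 (hN ▸ hx)) u hu) ((γ ^ i0)⁻¹)
      rw [T_apply] at h1
      rw [← h1]
      congr 1
      rw [mul_comm (γ ^ i0) x, mul_assoc, mul_inv_cancel, mul_one]
    · intro j hj hne
      rw [map_mul, aeval_C, Module.End.mul_apply]
      change u ((γ ^ j)⁻¹) * (aeval (T γ) (X ^ j : ℚ[X]) (ind N) x) = 0
      rw [aeval_X_pow, ind, if_neg, mul_zero]
      intro h
      exact hne (huniq x j i0 (Finset.mem_range.1 hj) hi0 h hx)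
    · intro h
      exact absurd (Finset.mem_range.2 hi0) h
  -- the ideal of polynomials that send `ind N` to `U`
  let J : Ideal ℚ[X] :=
    { carrier := {P | aeval (T γ) P (ind N) ∈ U}
      zero_mem' := by simp
      add_mem' := fun {a b} ha hb => by
        change aeval (T γ) (a + b) (ind N) ∈ U
        rw [map_add, LinearMap.add_apply]
        exact U.add_mem ha hb
      smul_mem' := fun c a ha => by
        change aeval (T γ) (c * a) (ind N) ∈ U
        rw [aeval_mul_apply, ← act_pol]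
        exact hU.stable.act _ ha }
  have hJ : ∀ P, P ∈ J ↔ aeval (T γ) P (ind N) ∈ U := fun P => Iff.rfl
  obtain ⟨D, hD⟩ := (IsPrincipalIdealRing.principal J).principal
  have hD' : ∀ P, P ∈ J ↔ D ∣ P := by
    intro P
    rw [hD]
    exact Ideal.mem_span_singleton
  set Θ : ℚ[X] := ∏ d ∈ m.properDivisors, cyclotomic d ℚ with hΘ
  have hΘm : cyclotomic m ℚ * Θ = X ^ m - 1 := by
    rw [hΘ, ← prod_cyclotomic_eq_X_pow_sub_one hm0, ← Nat.cons_self_properDivisors hm0.ne',
      Finset.prod_cons]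
  have hXm : X ^ m - 1 ∈ J := by
    rw [hJ, aeval_Xm N ((hγ m).2 dvd_rfl)]
    exact U.zero_mem
  have hnot : ¬ cyclotomic m ℚ ∣ D := by
    intro hdvd
    -- then `Θ` kills `U`
    have hkill : pol γ Θ ∈ ann U hU.stable := by
      intro u hu
      obtain ⟨P, rfl⟩ := hrep u hu
      rw [act_pol, ← aeval_mul_apply]
      obtain ⟨Q, hQ⟩ := hdvd.trans ((hD' P).1 hu)
      rw [hQ, ← mul_assoc, mul_comm Θ, hΘm, mul_comm, aeval_mul_apply,
        aeval_Xm N ((hγ m).2 dvd_rfl), map_zero]
    have hprime := hU.prime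
    rw [hΘ, pol, map_prod, hprime.prod_mem_iff] at hkill
    obtain ⟨d, hd, hdk⟩ := hkill
    rw [Nat.mem_properDivisors] at hd
    have hd0 : 0 < d := Nat.pos_of_dvd_of_pos hd.1 hm0
    have h1 : γ ^ d ∈ N := by
      intro u hu
      obtain ⟨Q, hQ⟩ := cyclotomic.dvd_X_pow_sub_one d ℚ
      have h2 : pol γ (X ^ d - 1) ∈ ann U hU.stable := by
        rw [hQ, mul_comm, pol, map_mul]
        exact Ideal.mul_mem_left _ _ hdk
      have h3 := h2 u hu
      rw [act_pol] at h3
      funext x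
      have h4 := congrFun h3 x
      rw [aeval_X_pow_sub_one, Pi.zero_apply, sub_eq_zero] at h4
      exact h4
    have := Nat.le_of_dvd hd0 ((hγ d).1 h1)
    omega
  have hDΘ : D ∣ Θ := by
    have h1 : D ∣ cyclotomic m ℚ * Θ := hΘm ▸ (hD' _).1 hXm
    have hirr : Irreducible (cyclotomic m ℚ) := cyclotomic.irreducible_rat hm0
    have hcop : IsCoprime (cyclotomic m ℚ) D := (hirr.coprime_iff_not_dvd).2 hnot
    exact hcop.symm.dvd_of_dvd_mul_left h1
  have hmem : (∏ p ∈ m.primeFactors, (X ^ (m / p) - 1 : ℚ[X])) ∈ J :=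
    (hD' _).2 (hDΘ.trans (prod_cyclotomic_dvd hm0.ne'))
  exact ⟨γ, m, hm0.ne', hγ, hgen, hmem⟩

theorem Minimal.exists_ternary [Finite G] {U : Submodule ℚ (G → ℚ)} (hU : Minimal U) :
    ∃ u ∈ U, u ≠ 0 ∧ ∀ x, u x = 0 ∨ u x = 1 ∨ u x = -1 := by
  obtain ⟨γ, m, hm0, hγ, -, hmem⟩ := hU.explicit
  obtain ⟨h1, -, x, hx⟩ := ternary_prod (kerG U) hγ hm0 m.primeFactors Finset.Subset.rfl
  exact ⟨_, hmem, fun h0 => hx (congrFun h0 x), h1⟩

/-- **Ternary lemma.** A nonzero translation-stable space of rational functions on a finite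
abelian group contains a nonzero function with values in `{-1, 0, 1}`. -/
theorem exists_ternary [Finite G] (U : Submodule ℚ (G → ℚ))
    (hU : ∀ g : G, ∀ u ∈ U, (fun x => u (g * x)) ∈ U) (hne : U ≠ ⊥) :
    ∃ u ∈ U, u ≠ 0 ∧ ∀ x, u x = 0 ∨ u x = 1 ∨ u x = -1 := by
  obtain ⟨W, hWU, hW⟩ := exists_minimal U (fun g u hu => hU g u hu) hne
  obtain ⟨u, hu, h⟩ := hW.exists_ternary
  exact ⟨u, hWU hu, h⟩

end Pool.Agent.Lib.MPf11a48.Ternary
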