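import Pool.Agent.Lib.MP_f11a48_ag.helper16.Core
import Pool.Agent.Lib.MP_f11a48_ag.helper17.Ternary
import Pool.Agent.Lib.TranscendentalPi

/-!
# Rigidity of the odd part of the Galois module of a CM algebra

Criteria and families for `OddRigid`.
-/

namespace Pool.Agent.Lib.MPf11a48.CM

open Module

section General

variable {E : Type} [CommRing E] [Algebra ℚ E] {ρ : E ≃ₐ[ℚ] E}

/-- An odd function supported on one conjugate pair gives the odd vector of that pair. -/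
theorem oddVec_mem_of_support (cm : IsCM ρ) {U : Submodule ℚ ((E →ₐ[ℚ] Qbar) → ℚ)}
    {u : (E →ₐ[ℚ] Qbar) → ℚ} (hu : u ∈ U) (hodd : IsOdd ρ u) {σ : E →ₐ[ℚ] Qbar}
    (hσ : u σ ≠ 0) (h : ∀ τ, τ ≠ σ → τ ≠ bar ρ σ → u τ = 0) : oddVec ρ σ ∈ U := by
  classical
  have h1 : oddVec ρ σ = (u σ)⁻¹ • u := by
    funext τ
    simp only [oddVec, Pi.smul_apply, smul_eq_mul]
    have hb : σ.comp (ρ : E →ₐ[ℚ] E) = bar ρ σ := rfl
    rw [hb]
    have hne : bar ρ σ ≠ σ := cm.ne σ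
    by_cases h2 : τ = σ
    · subst h2
      rw [if_pos rfl, if_neg (Ne.symm hne), inv_mul_cancel₀ hσ, sub_zero]
    · by_cases h3 : τ = bar ρ σ
      · subst h3
        rw [if_neg h2, if_pos rfl]
        have h4 : u (bar ρ σ) = -u σ := hodd σ
        rw [h4, mul_neg, inv_mul_cancel₀ hσ, zero_sub]
      · rw [if_neg h2, if_neg h3, h τ h2 h3, mul_zero, sub_zero]
  rw [h1]
  exact U.smul_mem _ hu

/-- **Separating criterion.** If for any two embeddings `σ, τ` in different conjugate pairs some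
`γ` preserves every conjugate pair, fixes `σ` and maps `τ` to its conjugate, then the odd part is
rigid. -/
theorem oddRigid_of_separating [Finite (E →ₐ[ℚ] Qbar)] (cm : IsCM ρ)
    (h : ∀ σ τ : E →ₐ[ℚ] Qbar, τ ≠ σ → τ ≠ bar ρ σ → ∃ γ : Qbar ≃ₐ[ℚ] Qbar,
      (∀ x : E →ₐ[ℚ] Qbar, gal γ x = x ∨ gal γ x = bar ρ x) ∧ gal γ σ = σ ∧
        gal γ τ = bar ρ τ) : OddRigid ρ := by
  classical
  intro U hodd hstab hne
  have := Fintype.ofFinite (E →ₐ[ℚ] Qbar)
  have key : ∀ (n : ℕ) (u : (E →ₐ[ℚ] Qbar) → ℚ), u ∈ U → u ≠ 0 →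
      (Finset.univ.filter fun σ => u σ ≠ 0).card = n → ∃ σ : E →ₐ[ℚ] Qbar, oddVec ρ σ ∈ U := by
    intro n
    induction n using Nat.strong_induction_on with
    | _ n ih =>
      intro u hu hu0 hcard
      obtain ⟨σ, hσ⟩ : ∃ σ, u σ ≠ 0 := by
        by_contra hcon
        push Not at hcon
        exact hu0 (funext hcon)
      by_cases hsup : ∀ τ, τ ≠ σ → τ ≠ bar ρ σ → u τ = 0
      · exact ⟨σ, oddVec_mem_of_support cm hu (hodd u hu) hσ hsup⟩
      · push Not at hsup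
        obtain ⟨τ, h1, h2, h3⟩ := hsup
        obtain ⟨γ, hγ, hγσ, hγτ⟩ := h σ τ h1 h2
        have hu' : (fun x => u (gal γ x)) ∈ U := hstab γ u hu
        have hv : (fun x => u x + u (gal γ x)) ∈ U := U.add_mem hu hu'
        refine ih _ ?_ _ hv ?_ rfl
        · rw [← hcard]
          apply Finset.card_lt_card
          rw [Finset.ssubset_iff_of_subset]
          · refine ⟨τ, by simpa using h3, ?_⟩
            have h4 : u (bar ρ τ) = -u τ := hodd u hu τ
            simp only [Finset.mem_filter, Finset.mem_univ, true_and, not_not, hγτ, h4]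
            ring
          · intro x hx
            simp only [Finset.mem_filter, Finset.mem_univ, true_and] at hx ⊢
            intro h0
            apply hx
            rcases hγ x with h5 | h5
            · rw [h5, h0, add_zero]
            · have h4 : u (bar ρ x) = -u x := hodd u hu x
              rw [h5, h4, h0, neg_zero, add_zero]
        · intro h0
          have := congrFun h0 σ
          simp only [Pi.zero_apply, hγσ] at this
          exact hσ (by linarith)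
  obtain ⟨u, hu, hu0⟩ := Submodule.exists_mem_ne_zero_of_ne_bot hne
  exact key _ u hu hu0 rfl

end General

section Field

variable {F : Type} [Field F] [NumberField F]

/-- The Galois group acts transitively on the embeddings of a number field. -/
theorem exists_gal (σ τ : F →ₐ[ℚ] Qbar) : ∃ γ : Qbar ≃ₐ[ℚ] Qbar, gal γ σ = τ := by
  let e : σ.fieldRange →ₐ[ℚ] τ.fieldRange :=
    (τ.rangeRestrict : F →ₐ[ℚ] τ.range).comp
      ((AlgEquiv.ofInjective σ σ.injective).symm : σ.range →ₐ[ℚ] F)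
  have he : ∀ x : F, ((e ⟨σ x, x, rfl⟩ : τ.fieldRange) : Qbar) = τ x := by
    intro x
    have h1 : (AlgEquiv.ofInjective σ σ.injective).symm ⟨σ x, x, rfl⟩ = x := by
      rw [AlgEquiv.symm_apply_eq]
      rfl
    change τ ((AlgEquiv.ofInjective σ σ.injective).symm ⟨σ x, x, rfl⟩) = τ x
    rw [h1]
  let g : Qbar →ₐ[ℚ] Qbar := e.liftNormal Qbar
  have hg : ∀ x : F, g (σ x) = τ x := by
    intro x
    have h1 := e.liftNormal_commutes Qbar ⟨σ x, x, rfl⟩
    exact h1.trans (he x)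
  refine ⟨AlgEquiv.ofBijective g (Algebra.IsAlgebraic.algHom_bijective g), ?_⟩
  refine AlgHom.ext fun x => ?_
  rw [gal_apply]
  exact hg x

variable {ρ : F ≃ₐ[ℚ] F}

theorem finite_emb : Finite (F →ₐ[ℚ] Qbar) := inferInstance

/-- **Single sign change.** If some `γ` exchanges `σ₀` with its conjugate and fixes all other
embeddings, the odd part is rigid. -/
theorem oddRigid_of_signChange (cm : IsCM ρ) {σ₀ : F →ₐ[ℚ] Qbar} {γ : Qbar ≃ₐ[ℚ] Qbar}
    (h1 : gal γ σ₀ = bar ρ σ₀) (h2 : ∀ τ : F →ₐ[ℚ] Qbar, τ ≠ σ₀ → τ ≠ bar ρ σ₀ → gal γ τ = τ) :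
    OddRigid ρ := by
  intro U hodd hstab hne
  obtain ⟨u, hu, hu0⟩ := Submodule.exists_mem_ne_zero_of_ne_bot hne
  obtain ⟨τ, hτ⟩ : ∃ τ, u τ ≠ 0 := by
    by_contra hcon
    push Not at hcon
    exact hu0 (funext hcon)
  obtain ⟨δ, hδ⟩ := exists_gal σ₀ τ
  have hv : (fun x => u (gal δ x)) ∈ U := hstab δ u hu
  have hw : (fun x => u (gal δ (gal γ x))) ∈ U := hstab γ _ hv
  have hz := U.sub_mem hv hw
  refine ⟨σ₀, oddVec_mem_of_support cm hz (hodd _ hz) ?_ ?_⟩
  · have h3 : u (gal δ (bar ρ σ₀)) = -u (gal δ σ₀) := hodd _ hv σ₀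
    simp only [Pi.sub_apply, h1, h3, hδ]
    intro h0
    exact hτ (by linarith)
  · intro x hx1 hx2
    simp only [Pi.sub_apply, h2 x hx1 hx2, sub_self]

theorem quartic_aux (cm : IsCM ρ) (h4 : finrank ℚ F = 4) {σ τ x : F →ₐ[ℚ] Qbar}
    (h1 : τ ≠ σ) (h2 : τ ≠ bar ρ σ) (h3 : x ≠ σ) (h5 : x ≠ bar ρ σ) : x = τ ∨ x = bar ρ τ := by
  classical
  have := Fintype.ofFinite (F →ₐ[ℚ] Qbar)
  by_contra hcon
  push Not at hcon
  have hcard : Fintype.card (F →ₐ[ℚ] Qbar) = 4 := by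
    rw [← Nat.card_eq_fintype_card, cm.card, h4]
  have hb : ∀ a b : F →ₐ[ℚ] Qbar, bar ρ a = bar ρ b → a = b := fun a b h => (bar ρ).injective h
  have hsub : ({σ, bar ρ σ, τ, bar ρ τ, x} : Finset (F →ₐ[ℚ] Qbar)).card ≤ 4 := by
    rw [← hcard]
    exact Finset.card_le_univ _
  have e1 : σ ≠ bar ρ σ := Ne.symm (cm.ne σ)
  have e2 : τ ≠ bar ρ τ := Ne.symm (cm.ne τ)
  have e3 : σ ≠ bar ρ τ := by
    intro h
    apply h2
    rw [h, bar_bar cm]
  have e4 : bar ρ σ ≠ bar ρ τ := fun h => h1 (hb _ _ h).symm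
  rw [Finset.card_insert_of_notMem, Finset.card_insert_of_notMem, Finset.card_insert_of_notMem,
    Finset.card_insert_of_notMem, Finset.card_singleton] at hsub
  · omega
  · simpa using hcon.2.symm
  · simp only [Finset.mem_insert, Finset.mem_singleton, not_or]
    exact ⟨e2, hcon.1.symm⟩
  · simp only [Finset.mem_insert, Finset.mem_singleton, not_or]
    exact ⟨h2.symm, e4, h5.symm⟩
  · simp only [Finset.mem_insert, Finset.mem_singleton, not_or]
    exact ⟨e1, h1.symm, e3, h3.symm⟩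

/-- **Quartic CM fields** without imaginary quadratic subfield have a rigid odd part. -/
theorem oddRigid_quartic (cm : IsCM ρ) (h4 : finrank ℚ F = 4)
    (hF : ∀ (x : F) (q : ℚ), x ^ 2 = algebraMap ℚ F q → 0 ≤ q) : OddRigid ρ := by
  classical
  have := Fintype.ofFinite (F →ₐ[ℚ] Qbar)
  intro U hodd hstab hne
  by_contra hcon
  push Not at hcon
  -- nonzero elements have full support
  have hfull : ∀ v ∈ U, v ≠ 0 → ∀ τ, v τ ≠ 0 := by
    intro v hv hv0 τ hτ
    obtain ⟨σ, hσ⟩ : ∃ σ, v σ ≠ 0 := by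
      by_contra h
      push Not at h
      exact hv0 (funext h)
    have hτ' : v (bar ρ τ) = 0 := by
      have : v (bar ρ τ) = -v τ := hodd v hv τ
      rw [this, hτ, neg_zero]
    refine hcon σ (oddVec_mem_of_support cm hv (hodd v hv) hσ fun x hx1 hx2 => ?_)
    have h1 : τ ≠ σ := by
      rintro rfl
      exact hσ hτ
    have h2 : τ ≠ bar ρ σ := by
      rintro rfl
      rw [bar_bar cm] at hτ'
      exact hσ hτ'
    rcases quartic_aux cm h4 h1 h2 hx1 hx2 with h | h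
    · rw [h, hτ]
    · rw [h, hτ']
  obtain ⟨u, hu, hu0⟩ := Submodule.exists_mem_ne_zero_of_ne_bot hne
  have hux := hfull u hu hu0
  obtain ⟨σ₀⟩ : Nonempty (F →ₐ[ℚ] Qbar) := by
    rw [← Finite.card_pos_iff, cm.card, h4]
    norm_num
  -- `u` is an eigenvector of the Galois group
  have heig : ∀ γ : Qbar ≃ₐ[ℚ] Qbar, ∀ τ, u (gal γ τ) = u (gal γ σ₀) / u σ₀ * u τ := by
    intro γ τ
    have hv : (fun x => u (gal γ x)) - (u (gal γ σ₀) / u σ₀) • u ∈ U :=
      U.sub_mem (hstab γ u hu) (U.smul_mem _ hu)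
    have h0 : (fun x => u (gal γ x)) - (u (gal γ σ₀) / u σ₀) • u = 0 := by
      by_contra hv0
      apply hfull _ hv hv0 σ₀
      simp only [Pi.sub_apply, Pi.smul_apply, smul_eq_mul]
      rw [div_mul_cancel₀ _ (hux σ₀), sub_self]
    have h1 := congrFun h0 τ
    simp only [Pi.sub_apply, Pi.smul_apply, smul_eq_mul, Pi.zero_apply] at h1
    linarith
  have hsq : ∀ γ : Qbar ≃ₐ[ℚ] Qbar, (u (gal γ σ₀) / u σ₀) ^ 2 = 1 := by
    intro γ
    have h1 : ∑ τ, u (gal γ τ) ^ 2 = ∑ τ, u τ ^ 2 :=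
      Equiv.sum_comp (gal γ) (fun τ => u τ ^ 2)
    have h2 : ∑ τ, u (gal γ τ) ^ 2 = (u (gal γ σ₀) / u σ₀) ^ 2 * ∑ τ, u τ ^ 2 := by
      rw [Finset.mul_sum]
      refine Finset.sum_congr rfl fun τ _ => ?_
      rw [heig γ τ]
      ring
    have h3 : 0 < ∑ τ, u τ ^ 2 := by
      refine Finset.sum_pos' (fun τ _ => sq_nonneg _) ⟨σ₀, Finset.mem_univ _, ?_⟩
      exact pow_pos (lt_of_le_of_ne (sq_nonneg _) (Ne.symm (pow_ne_zero 2 (hux σ₀)))) 1 |>.trans_eq
        (pow_one _)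
    rw [h1] at h2
    exact mul_right_cancel₀ h3.ne' (by rw [← h2, one_mul])
  -- the Gauss-sum like element
  let t : F → Qbar := fun y => ∑ τ : F →ₐ[ℚ] Qbar, algebraMap ℚ Qbar (u τ) * τ y
  have ht : ∀ (γ : Qbar ≃ₐ[ℚ] Qbar) (y : F),
      γ (t y) = algebraMap ℚ Qbar (u (gal γ.symm σ₀) / u σ₀) * t y := by
    intro γ y
    simp only [t, map_sum, map_mul, AlgEquiv.commutes, Finset.mul_sum]
    rw [← Equiv.sum_comp (gal γ) (fun τ => algebraMap ℚ Qbar (u (gal γ.symm σ₀) / u σ₀) *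
      (algebraMap ℚ Qbar (u τ) * τ y))]
    refine Finset.sum_congr rfl fun τ _ => ?_
    have h1 : u τ = u (gal γ.symm σ₀) / u σ₀ * u (gal γ τ) := by
      rw [← heig γ.symm (gal γ τ)]
      congr 1
      refine AlgHom.ext fun z => ?_
      exact (γ.symm_apply_apply (τ z)).symm
    rw [gal_apply, ← mul_assoc, ← map_mul, ← h1]
  obtain ⟨y, hy⟩ : ∃ y, t y ≠ 0 := by
    by_contra h
    push Not at h
    have hli := linearIndependent_toLinearMap ℚ F Qbar
    rw [Fintype.linearIndependent_iff] at hli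
    have h1 := hli (fun τ => algebraMap ℚ Qbar (u τ)) (by
      refine LinearMap.ext fun y => ?_
      simp only [LinearMap.sum_apply, LinearMap.smul_apply, smul_eq_mul, LinearMap.zero_apply]
      exact h y) σ₀
    exact hux σ₀ ((map_eq_zero _).1 h1)
  -- its square is rational
  obtain ⟨q, hq⟩ := TranscendentalPi.exists_rat_of_fixed (t y ^ 2) (by
    intro γ
    rw [map_pow]
    have h1 : γ (t y) = algebraMap ℚ Qbar (u (gal γ.symm σ₀) / u σ₀) * t y := ht γ y
    rw [h1, mul_pow, ← map_pow, hsq, map_one, one_mul])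
  -- it is purely imaginary
  have hconj : ccQ (t y) = -t y := by
    rw [ht ccQ y]
    have h1 : gal ccQ.symm σ₀ = bar ρ σ₀ := by
      have h2 : gal ccQ (bar ρ σ₀) = σ₀ := by rw [← bar_eq_gal cm, bar_bar cm]
      rw [← h2]
      refine AlgHom.ext fun z => ?_
      rw [gal_apply, gal_apply, AlgEquiv.symm_apply_apply, h2]
    rw [h1]
    have h3 : u (bar ρ σ₀) = -u σ₀ := hodd u hu σ₀
    rw [h3, neg_div, div_self (hux σ₀)]
    simp
  -- it lies in the image of `F`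
  have hmem : ∃ x : F, σ₀ x = t y := by
    have hG : IsGalois σ₀.fieldRange Qbar := inferInstance
    have h1 : t y ∈ (⊥ : IntermediateField σ₀.fieldRange Qbar) := by
      rw [InfiniteGalois.mem_bot_iff_fixed]
      intro φ
      let γ : Qbar ≃ₐ[ℚ] Qbar := φ.restrictScalars ℚ
      have h2 : gal γ.symm σ₀ = σ₀ := by
        refine AlgHom.ext fun x => ?_
        rw [gal_apply, AlgEquiv.symm_apply_eq]
        exact (φ.commutes ⟨σ₀ x, x, rfl⟩).symm
      have h3 : γ (t y) = t y := by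
        rw [ht γ y, h2, div_self (hux σ₀), map_one, one_mul]
      exact h3
    obtain ⟨⟨z, x, hx⟩, hz⟩ := IntermediateField.mem_bot.1 h1
    refine ⟨x, ?_⟩
    rw [← hz]
    exact hx
  obtain ⟨x, hx⟩ := hmem
  have hx2 : x ^ 2 = algebraMap ℚ F q := by
    have h1 : σ₀ (x ^ 2) = σ₀ (algebraMap ℚ F q) := by
      rw [map_pow, hx, σ₀.commutes]
      exact hq.symm
    exact σ₀.injective h1
  have hq0 := hF x q hx2
  -- contradiction
  have h5 : ((t y : Qbar) : ℂ) ^ 2 = (q : ℂ) := by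
    have := congrArg (algebraMap Qbar ℂ) hq
    rw [map_pow] at this
    rw [← IsScalarTower.algebraMap_apply] at this
    exact this.symm.trans (by simp)
  have h6 : starRingEnd ℂ ((t y : Qbar) : ℂ) = -((t y : Qbar) : ℂ) := by
    rw [← ccQ_coe, hconj]
    rfl
  have h7 : ((t y : Qbar) : ℂ) ≠ 0 := fun h => hy (Subtype.ext h)
  have h8 : ((Complex.normSq ((t y : Qbar) : ℂ) : ℝ) : ℂ) = ((-(q : ℝ) : ℝ) : ℂ) := by
    rw [Complex.normSq_eq_conj_mul_self, h6]
    push_cast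
    rw [← h5]
    ring
  have h9 : Complex.normSq ((t y : Qbar) : ℂ) = -(q : ℝ) := Complex.ofReal_injective h8
  have h10 := Complex.normSq_pos.2 h7
  rw [h9] at h10
  have : (0 : ℝ) ≤ (q : ℝ) := by exact_mod_cast hq0
  linarith

section Galois

variable [IsGalois ℚ F]

/-- The embeddings of a Galois field are a torsor under the Galois group. -/
theorem comp_bijective (cm : IsCM ρ) (σ₀ : F →ₐ[ℚ] Qbar) :
    Function.Bijective (fun g : F ≃ₐ[ℚ] F => σ₀.comp (g : F →ₐ[ℚ] F)) := by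
  classical
  have := Fintype.ofFinite (F →ₐ[ℚ] Qbar)
  have := Fintype.ofFinite (F ≃ₐ[ℚ] F)
  rw [Fintype.bijective_iff_injective_and_card]
  constructor
  · intro g h hgh
    refine AlgEquiv.ext fun x => ?_
    exact σ₀.injective (DFunLike.congr_fun hgh x)
  · rw [← Nat.card_eq_fintype_card, ← Nat.card_eq_fintype_card, cm.card,
      IsGalois.card_aut_eq_finrank]

/-- Pull back of a space of functions on the embeddings to the Galois group. -/
noncomputable def pull (σ₀ : F →ₐ[ℚ] Qbar) :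
    ((F →ₐ[ℚ] Qbar) → ℚ) →ₗ[ℚ] ((F ≃ₐ[ℚ] F) → ℚ) where
  toFun u g := u (σ₀.comp (g : F →ₐ[ℚ] F))
  map_add' _ _ := rfl
  map_smul' _ _ := rfl

omit [IsGalois ℚ F] in
theorem pull_apply (σ₀ : F →ₐ[ℚ] Qbar) (u : (F →ₐ[ℚ] Qbar) → ℚ) (g : F ≃ₐ[ℚ] F) :
    pull σ₀ u g = u (σ₀.comp (g : F →ₐ[ℚ] F)) := rfl

theorem pull_injective (cm : IsCM ρ) (σ₀ : F →ₐ[ℚ] Qbar) : Function.Injective (pull σ₀) := by
  intro u v huv
  funext τ
  obtain ⟨g, rfl⟩ := (comp_bijective cm σ₀).2 τ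
  exact congrFun huv g

omit [IsGalois ℚ F] in
theorem pull_stable (σ₀ : F →ₐ[ℚ] Qbar) {U : Submodule ℚ ((F →ₐ[ℚ] Qbar) → ℚ)}
    (hstab : ∀ γ : Qbar ≃ₐ[ℚ] Qbar, ∀ u ∈ U,
      (fun σ => u ((γ : Qbar →ₐ[ℚ] Qbar).comp σ)) ∈ U) (h : F ≃ₐ[ℚ] F) (w : (F ≃ₐ[ℚ] F) → ℚ)
    (hw : w ∈ U.map (pull σ₀)) : (fun x => w (h * x)) ∈ U.map (pull σ₀) := by
  obtain ⟨u, hu, rfl⟩ := hw
  obtain ⟨γ, hγ⟩ := exists_gal σ₀ (σ₀.comp (h : F →ₐ[ℚ] F))
  refine ⟨_, hstab γ u hu, funext fun g => ?_⟩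
  simp only [pull_apply]
  congr 1
  refine AlgHom.ext fun x => ?_
  exact DFunLike.congr_fun hγ (g x)

omit [IsGalois ℚ F] in
theorem map_eq_bot {σ₀ : F →ₐ[ℚ] Qbar} (hinj : Function.Injective (pull σ₀))
    {U : Submodule ℚ ((F →ₐ[ℚ] Qbar) → ℚ)} (h : U.map (pull σ₀) = ⊥) : U = ⊥ := by
  rw [Submodule.eq_bot_iff]
  intro u hu
  have h1 : pull σ₀ u ∈ U.map (pull σ₀) := ⟨u, hu, rfl⟩
  rw [h, Submodule.mem_bot, ← map_zero (pull σ₀)] at h1
  exact hinj h1

/-- **Abelian CM fields.** If `F` is a CM field, Galois over `ℚ` with abelian group, every nonzero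
Galois-stable space of (odd) functions on its embeddings contains a nonzero function with values
in `{-1, 0, 1}`. -/
theorem exists_ternary_of_abelian (cm : IsCM ρ) (hab : ∀ g h : F ≃ₐ[ℚ] F, g * h = h * g)
    (U : Submodule ℚ ((F →ₐ[ℚ] Qbar) → ℚ))
    (hstab : ∀ γ : Qbar ≃ₐ[ℚ] Qbar, ∀ u ∈ U,
      (fun σ => u ((γ : Qbar →ₐ[ℚ] Qbar).comp σ)) ∈ U) (hne : U ≠ ⊥) :
    ∃ u ∈ U, u ≠ 0 ∧ ∀ σ, u σ = 0 ∨ u σ = 1 ∨ u σ = -1 := by
  classical
  let _ : CommGroup (F ≃ₐ[ℚ] F) := { (inferInstance : Group (F ≃ₐ[ℚ] F)) with mul_comm := hab }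
  obtain ⟨σ₀⟩ : Nonempty (F →ₐ[ℚ] Qbar) := by
    rw [← Finite.card_pos_iff, cm.card]
    exact finrank_pos
  have hinj := pull_injective cm σ₀
  obtain ⟨w, hw, hw0, hw1⟩ := Ternary.exists_ternary (G := F ≃ₐ[ℚ] F) (U.map (pull σ₀))
    (fun h w hw => pull_stable σ₀ hstab h w hw) (by
      intro h0
      apply hne
      exact map_eq_bot hinj h0)
  obtain ⟨u, hu, rfl⟩ := hw
  refine ⟨u, hu, ?_, fun σ => ?_⟩
  · rintro rfl
    exact hw0 (map_zero _)
  · obtain ⟨g, rfl⟩ := (comp_bijective cm σ₀).2 σ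
    exact hw1 g

/-- **Cyclic CM fields of 2-power degree** have a rigid odd part. -/
theorem oddRigid_cyclic (cm : IsCM ρ) (hcyc : IsCyclic (F ≃ₐ[ℚ] F)) {k : ℕ}
    (hk : finrank ℚ F = 2 ^ k) : OddRigid ρ := by
  classical
  intro U hodd hstab hne
  let _ : CommGroup (F ≃ₐ[ℚ] F) := IsCyclic.commGroup
  obtain ⟨σ₀⟩ : Nonempty (F →ₐ[ℚ] Qbar) := by
    rw [← Finite.card_pos_iff, cm.card]
    exact finrank_pos
  have hinj := pull_injective cm σ₀
  have hcard : Nat.card (F ≃ₐ[ℚ] F) = 2 ^ k := by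
    rw [IsGalois.card_aut_eq_finrank, hk]
  have hρ2 : ρ * ρ = 1 := by
    refine AlgEquiv.ext fun x => ?_
    have h1 := bar_bar cm σ₀
    have h2 := DFunLike.congr_fun h1 x
    exact σ₀.injective h2
  have hρ1 : ρ ≠ 1 := by
    intro h
    apply cm.ne σ₀
    rw [h]
    rfl
  -- uniqueness of the involution
  have huniq : ∀ g : F ≃ₐ[ℚ] F, g ^ 2 = 1 → g ≠ 1 → g = ρ := by
    intro g hg hg1
    by_contra hgρ
    have := Fintype.ofFinite (F ≃ₐ[ℚ] F)
    have h1 := IsCyclic.card_pow_eq_one_le (α := F ≃ₐ[ℚ] F) (n := 2) two_pos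
    have h2 : ({1, ρ, g} : Finset (F ≃ₐ[ℚ] F)).card = 3 := by
      rw [Finset.card_insert_of_notMem, Finset.card_insert_of_notMem, Finset.card_singleton]
      · simpa using fun h => hgρ h.symm
      · simp only [Finset.mem_insert, Finset.mem_singleton, not_or]
        exact ⟨hρ1.symm, hg1.symm⟩
    have h3 : ({1, ρ, g} : Finset (F ≃ₐ[ℚ] F)) ⊆ Finset.univ.filter fun a => a ^ 2 = 1 := by
      intro a ha
      simp only [Finset.mem_insert, Finset.mem_singleton] at ha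
      simp only [Finset.mem_filter, Finset.mem_univ, true_and]
      rcases ha with rfl | rfl | rfl
      · simp
      · rw [pow_two, hρ2]
      · exact hg
    have h4 := (Finset.card_le_card h3).trans h1
    omega
  have hUne : U.map (pull σ₀) ≠ ⊥ := by
    intro h0
    apply hne
    exact map_eq_bot hinj h0
  obtain ⟨W, hWU, hW⟩ := Ternary.exists_minimal (G := F ≃ₐ[ℚ] F) (U.map (pull σ₀))
    (fun h w hw => pull_stable σ₀ hstab h w hw) hUne
  have hWodd : ∀ w ∈ W, ∀ g : F ≃ₐ[ℚ] F, w (ρ * g) = -w g := by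
    intro w hw g
    obtain ⟨u, hu, rfl⟩ := hWU hw
    have h1 := hodd u hu (σ₀.comp (g : F →ₐ[ℚ] F))
    rw [mul_comm]
    exact h1
  -- the kernel is trivial
  have hker : Ternary.kerG W = ⊥ := by
    rw [Subgroup.eq_bot_iff_forall]
    intro g hg
    by_contra hg1
    have h1 : orderOf g ∣ 2 ^ k := hcard ▸ orderOf_dvd_natCard g
    obtain ⟨j, hj, hj2⟩ := (Nat.dvd_prime_pow Nat.prime_two).1 h1
    have hj0 : j ≠ 0 := by
      rintro rfl
      rw [pow_zero, orderOf_eq_one_iff] at hj2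
      exact hg1 hj2
    obtain ⟨i, rfl⟩ : ∃ i, j = i + 1 := ⟨j - 1, by omega⟩
    have h2 : g ^ 2 ^ i = ρ := by
      apply huniq
      · rw [← pow_mul, ← pow_succ, ← hj2]
        exact pow_orderOf_eq_one g
      · intro h0
        have h3 := orderOf_dvd_of_pow_eq_one h0
        rw [hj2] at h3
        have h4 := Nat.le_of_dvd (by positivity) h3
        have h5 : 2 ^ i < 2 ^ (i + 1) := Nat.pow_lt_pow_right (by norm_num) (by omega)
        omega
    have h3 : ρ ∈ Ternary.kerG W := h2 ▸ (Ternary.kerG W).pow_mem hg _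
    apply hW.ne
    rw [Submodule.eq_bot_iff]
    intro w hw
    funext x
    have h4 := congrFun (Ternary.mem_kerG.1 h3 w hw) x
    rw [Ternary.T_apply, hWodd w hw x] at h4
    simp only [Pi.zero_apply]
    linarith
  obtain ⟨γ, m, hm0, hγ, hgen, hmem⟩ := hW.explicit
  rw [hker] at hγ hgen hmem
  simp only [Subgroup.mem_bot] at hγ hgen
  -- `m` is a power of two different from one
  have hm2 : m ∣ 2 ^ k := (hγ _).1 (hcard ▸ pow_card_eq_one')
  obtain ⟨j, -, hj⟩ := (Nat.dvd_prime_pow Nat.prime_two).1 hm2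
  have hj0 : j ≠ 0 := by
    rintro rfl
    obtain ⟨i, hi, hi2⟩ := hgen ρ
    rw [hj, pow_zero, Nat.lt_one_iff] at hi
    rw [hi, pow_zero, one_mul] at hi2
    exact hρ1 hi2
  obtain ⟨i, rfl⟩ : ∃ i, j = i + 1 := ⟨j - 1, by omega⟩
  have hprime : m.primeFactors = {2} := by
    rw [hj]
    exact Nat.primeFactors_prime_pow (by omega) Nat.prime_two
  have hhalf : m / 2 = 2 ^ i := by
    rw [hj, pow_succ, Nat.mul_div_cancel _ two_pos]
  rw [hprime, Finset.prod_singleton, hhalf] at hmem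
  have hγρ : γ ^ 2 ^ i = ρ := by
    apply huniq
    · rw [← pow_mul, ← pow_succ, hγ, hj]
    · intro h0
      have h3 := (hγ _).1 h0
      rw [hj] at h3
      have h4 := Nat.le_of_dvd (by positivity) h3
      have h5 : 2 ^ i < 2 ^ (i + 1) := Nat.pow_lt_pow_right (by norm_num) (by omega)
      omega
  obtain ⟨u, hu, hu2⟩ := hWU hmem
  have hval : ∀ g : F ≃ₐ[ℚ] F, u (σ₀.comp (g : F →ₐ[ℚ] F)) =
      (if ρ * g = 1 then 1 else 0) - if g = 1 then 1 else 0 := by
    intro g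
    have h1 := congrFun hu2 g
    rw [pull_apply, Ternary.aeval_X_pow_sub_one, hγρ] at h1
    rw [h1]
    simp only [Ternary.ind, Subgroup.mem_bot]
  have hρinv : ∀ g : F ≃ₐ[ℚ] F, ρ * g = 1 ↔ g = ρ := by
    intro g
    constructor
    · intro h
      calc g = (ρ * ρ) * g := by rw [hρ2, one_mul]
        _ = ρ * (ρ * g) := mul_assoc _ _ _
        _ = ρ := by rw [h, mul_one]
    · rintro rfl
      exact hρ2
  refine ⟨σ₀, oddVec_mem_of_support cm hu (hodd u hu) ?_ ?_⟩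
  · have h1 := hval 1
    have h2 : σ₀.comp ((1 : F ≃ₐ[ℚ] F) : F →ₐ[ℚ] F) = σ₀ := rfl
    rw [h2, if_neg (by rw [mul_one]; exact hρ1), if_pos rfl] at h1
    rw [h1]
    norm_num
  · intro τ hτ1 hτ2
    obtain ⟨g, rfl⟩ := (comp_bijective cm σ₀).2 τ
    have h1 := hval g
    rw [if_neg, if_neg, sub_zero] at h1
    · exact h1
    · rintro rfl
      exact hτ1 rfl
    · rw [hρinv]
      rintro rfl
      exact hτ2 rfl

end Galois

end Field

end Pool.Agent.Lib.MPf11a48.CM
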